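import Pool.Agent.FS.IdIso.Struct

/-! Orders of idempotent models isotopic to an abelian group. -/

namespace Pool.Agent.FS.IdIso

theorem eig {Γ : Type*} [AddCommGroup Γ] {p : ℕ} [hp : Fact p.Prime] (K : AddSubgroup Γ)
    (hK : Nat.card K = p) (B : Γ →+ Γ) (hB : ∀ x ∈ K, B x ∈ K)
    (h : ∀ x, B (B (B x)) - B (B x) + x = 0) : ∃ a : ℤ, (p : ℤ) ∣ a ^ 3 - a ^ 2 + 1 := by
  have : Finite K := Nat.finite_of_card_ne_zero (hK ▸ hp.out.ne_zero)
  have : Nontrivial K := Finite.one_lt_card_iff_nontrivial.1 (hK ▸ hp.out.one_lt)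
  obtain ⟨w, hw⟩ := exists_ne (0 : K)
  obtain ⟨m, hm⟩ := mem_zmultiples_of_prime_card hK hw (g' := ⟨B w, hB _ w.2⟩)
  have hm' : B w = m • (w : Γ) := (congrArg Subtype.val hm).symm
  have ho : addOrderOf w = p := by
    have := addOrderOf_dvd_natCard w
    rw [hK] at this
    exact ((Nat.dvd_prime hp.out).1 this).resolve_left (by simpa using hw)
  refine ⟨m, ?_⟩
  rw [← ho, addOrderOf_dvd_iff_zsmul_eq_zero]
  apply Subtype.ext
  have := h w
  simp only [hm', map_zsmul] at this
  simp only [AddSubgroupClass.coe_zsmul, ZeroMemClass.coe_zero]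
  rw [← this]
  module

theorem coreI (p : ℕ) [hp : Fact p.Prime] (hroot : ¬ ∃ a : ℤ, (p : ℤ) ∣ a ^ 3 - a ^ 2 + 1) (n : ℕ) :
    ∀ (G : Type) [AddCommGroup G] [Finite G], Nat.card G = n →
      ∀ f g : G → G, (∀ x y, f (f (f y + g x) + g y) + g y = x) → (∀ x, f x + g x = x) →
        3 ∣ n.factorization p := by
  induction n using Nat.strong_induction_on with
  | _ n ih =>
  intro G _ _ hn f g hE hI
  by_cases hM : ∃ M : AddSubgroup G, M ≠ ⊥ ∧ M ≠ ⊤ ∧ (∀ x y, x - y ∈ M → f x - f y ∈ M) ∧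
      ∀ x y, x - y ∈ M → g x - g y ∈ M
  · obtain ⟨M, hb, ht, mf, mg⟩ := hM
    have hc := M.card_eq_card_quotient_mul_card_addSubgroup
    have h1 : 1 < Nat.card M := (AddSubgroup.one_lt_card_iff_ne_bot M).2 hb
    have h0 : 1 < Nat.card (G ⧸ M) := AddSubgroup.one_lt_index_of_ne_top ht
    have qf : ∀ x : G, (f (x : G ⧸ M).out : G ⧸ M) = f x := fun x =>
      QuotientAddGroup.eq_iff_sub_mem.2 (mf _ _
        (QuotientAddGroup.eq_iff_sub_mem.1 (QuotientAddGroup.out_eq' _)))
    have qg : ∀ x : G, (g (x : G ⧸ M).out : G ⧸ M) = g x := fun x =>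
      QuotientAddGroup.eq_iff_sub_mem.2 (mg _ _
        (QuotientAddGroup.eq_iff_sub_mem.1 (QuotientAddGroup.out_eq' _)))
    rw [hn] at hc
    have a1 := ih (Nat.card (G ⧸ M)) (by rw [hc]; nlinarith) (G ⧸ M) rfl
      (fun q => (f q.out : G ⧸ M)) (fun q => (g q.out : G ⧸ M))
      (fun x y => by
        obtain ⟨x, rfl⟩ := QuotientAddGroup.mk_surjective x
        obtain ⟨y, rfl⟩ := QuotientAddGroup.mk_surjective y
        simp only [qf, qg, ← QuotientAddGroup.mk_add, hE])
      (fun x => by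
        obtain ⟨x, rfl⟩ := QuotientAddGroup.mk_surjective x
        simp only [qf, qg, ← QuotientAddGroup.mk_add, hI])
    have e : ∀ u v : G, f u - f 0 + (g v - g 0) = f u + g v := fun u v => by
      rw [sub_add_sub_comm, hI 0, sub_zero]
    have a2 := ih (Nat.card M) (by rw [hc]; nlinarith) M rfl
      (fun k => ⟨f k - f 0, mf _ _ (by simp)⟩) (fun k => ⟨g k - g 0, mg _ _ (by simp)⟩)
      (fun x y => Subtype.ext (by simp only [AddSubgroup.coe_add, e, hE]))
      (fun x => Subtype.ext (by simp only [AddSubgroup.coe_add, e, hI]))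
    rw [hc, Nat.factorization_mul (by omega) (by omega), Finsupp.add_apply]
    exact dvd_add a1 a2
  have hlin := (struct f g hE).resolve_left hM
  let A : G →+ G := AddMonoidHom.mk' (fun x => f x - f 0) fun x y => by
    rw [eq_sub_of_add_eq (hlin x y)]; abel
  have hA : ∀ x, A x = f x - f 0 := fun x => rfl
  have hg : ∀ x, g x = x - f x := fun x => eq_sub_of_add_eq' (hI x)
  have cub : ∀ x, A (A (A x)) - A (A x) + x = 0 := by
    intro x
    have h := hE x 0
    have e1 : f 0 + g x = x - A x := by rw [hg, hA]; abel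
    have e2 : ∀ u, f u + g 0 = A u := fun u => by rw [hg, hA]; abel
    rw [e1, e2, e2, map_sub, map_sub] at h
    rw [← h]
    nth_rewrite 1 [h, h]
    abel
  by_cases hpn : p ∣ n
  swap
  · rw [Nat.factorization_eq_zero_of_not_dvd hpn]; exact dvd_zero _
  obtain ⟨k, hk⟩ := exists_prime_addOrderOf_dvd_card' (G := G) p (hn ▸ hpn)
  let ι : ZMod p →+ G := ZMod.lift p ⟨zmultiplesHom G k, by simp [← hk]⟩
  have hι : ι 1 = k := by
    have := ZMod.lift_coe p (⟨zmultiplesHom G k, by simp [← hk]⟩ : {f : ℤ →+ G // f p = 0}) 1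
    simpa using this
  let φ : ZMod p × ZMod p × ZMod p →+ G := AddMonoidHom.mk'
    (fun x => ι x.1 + A (ι x.2.1) + A (A (ι x.2.2))) fun x y => by
      simp only [Prod.fst_add, Prod.snd_add, map_add]; abel
  let C : ZMod p × ZMod p × ZMod p →+ ZMod p × ZMod p × ZMod p := AddMonoidHom.mk'
    (fun x => (-x.2.2, x.1, x.2.1 + x.2.2)) fun x y => by
      ext <;> simp <;> ring
  have hφ : ∀ x, φ (C x) = A (φ x) := by
    intro x
    have := cub (ι x.2.2)
    change ι (-x.2.2) + A (ι x.1) + A (A (ι (x.2.1 + x.2.2))) =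
      A (ι x.1 + A (ι x.2.1) + A (A (ι x.2.2)))
    simp only [map_add, map_neg]
    rw [← sub_eq_zero, ← neg_eq_zero, ← this]; abel
  have inv : ∀ x ∈ φ.range, A x ∈ φ.range := by
    rintro _ ⟨x, rfl⟩
    exact ⟨C x, hφ x⟩
  have htop : φ.range = ⊤ := by
    by_contra hne
    refine hM ⟨φ.range, fun hb => ?_, hne, fun x y h => ?_, fun x y h => ?_⟩
    · have : k ∈ φ.range := ⟨(1, 0, 0), by
        change ι 1 + A (ι 0) + A (A (ι 0)) = k
        simp [hι]⟩
      rw [hb, AddSubgroup.mem_bot] at this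
      rw [this, addOrderOf_zero] at hk
      exact hp.out.ne_one hk.symm
    · have : f x - f y = A (x - y) := by rw [map_sub, hA, hA]; abel
      rw [this]; exact inv _ h
    · have : g x - g y = (x - y) - A (x - y) := by rw [map_sub, hA, hA, hg, hg]; abel
      rw [this]; exact sub_mem h (inv _ h)
  have hc : p ^ 3 = n * Nat.card φ.ker := by
    have h1 := φ.ker.card_eq_card_quotient_mul_card_addSubgroup
    rw [Nat.card_congr (QuotientAddGroup.quotientKerEquivRange φ).toEquiv, htop,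
      AddSubgroup.card_top, hn] at h1
    rw [← h1]; simp [pow_three]
  obtain ⟨j, hj, rfl⟩ := (Nat.dvd_prime_pow hp.out).1 (Dvd.intro _ hc.symm)
  rw [hp.out.factorization_pow, Finsupp.single_eq_same]
  interval_cases j
  · exact dvd_zero _
  · exact absurd (eig (⊤ : AddSubgroup G) (by rw [AddSubgroup.card_top, hn, pow_one]) A
      (fun _ _ => trivial) cub) hroot
  · refine absurd (eig φ.ker ?_ C (fun x hx => ?_) fun x => ?_) hroot
    · rw [pow_succ] at hc
      exact (Nat.eq_of_mul_eq_mul_left (pow_pos hp.out.pos 2) hc).symm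
    · rw [AddMonoidHom.mem_ker] at hx ⊢
      rw [hφ, hx, map_zero]
    · ext <;> simp [C]
  · exact dvd_rfl

/-- There is an abelian group of order `n` with maps `f`, `g` giving an idempotent model. -/
def LinI (n : ℕ) : Prop :=
  ∃ (G : Type) (_ : AddCommGroup G) (_ : Finite G), Nat.card G = n ∧
    ∃ f g : G → G, (∀ x y, f (f (f y + g x) + g y) + g y = x) ∧ ∀ x, f x + g x = x

theorem linI_one : LinI 1 :=
  ⟨ZMod 1, inferInstance, inferInstance, Nat.card_zmod 1, id, id,
    fun _ _ => Subsingleton.elim _ _, fun _ => Subsingleton.elim _ _⟩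

theorem linI_mul {a b : ℕ} (ha : LinI a) (hb : LinI b) : LinI (a * b) := by
  obtain ⟨G, _, _, rfl, f, g, h, i⟩ := ha
  obtain ⟨G', _, _, rfl, f', g', h', i'⟩ := hb
  exact ⟨G × G', inferInstance, inferInstance, Nat.card_prod _ _,
    fun x => (f x.1, f' x.2), fun x => (g x.1, g' x.2),
    fun x y => Prod.ext (h x.1 y.1) (h' x.2 y.2), fun x => Prod.ext (i x.1) (i' x.2)⟩

theorem linI_root {k : ℕ} (hk : k ≠ 0) (a : ZMod k) (ha : a ^ 3 - a ^ 2 + 1 = 0) : LinI k := by
  have : NeZero k := ⟨hk⟩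
  refine ⟨ZMod k, inferInstance, inferInstance, Nat.card_zmod k,
    fun x => a * x, fun x => (1 - a) * x, fun x y => ?_, fun x => by ring⟩
  linear_combination (y - x) * ha

theorem linI_cube {k : ℕ} (hk : k ≠ 0) : LinI (k ^ 3) := by
  have : NeZero k := ⟨hk⟩
  refine ⟨ZMod k × ZMod k × ZMod k, inferInstance, inferInstance, by simp [pow_three],
    fun x => (-x.2.2, x.1, x.2.1 + x.2.2),
    fun x => (x.1 + x.2.2, x.2.1 - x.1, -x.2.1), fun x y => ?_, fun x => ?_⟩
  · ext <;> simp <;> ring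
  · ext <;> simp

theorem linI_of (n : ℕ) (hn : n ≠ 0)
    (h : ∀ p : ℕ, p.Prime → (¬ ∃ a : ℤ, (p : ℤ) ∣ a ^ 3 - a ^ 2 + 1) → 3 ∣ n.factorization p) :
    LinI n := by
  induction n using Nat.recOnPosPrimePosCoprime with
  | zero => exact absurd rfl hn
  | one => exact linI_one
  | prime_pow p e hp he =>
    by_cases hr : ∃ a : ℤ, (p : ℤ) ∣ a ^ 3 - a ^ 2 + 1
    · obtain ⟨a, ha⟩ := hr
      have h1 : LinI p := linI_root hp.ne_zero a (by
        have := (ZMod.intCast_zmod_eq_zero_iff_dvd _ p).2 ha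
        push_cast at this
        exact this)
      clear h hn he
      induction e with
      | zero => exact linI_one
      | succ e ih => rw [pow_succ]; exact linI_mul ih h1
    · have := h p hp hr
      rw [hp.factorization_pow, Finsupp.single_eq_same] at this
      obtain ⟨j, rfl⟩ := this
      rw [mul_comm, pow_mul]
      exact linI_cube (pow_ne_zero _ hp.ne_zero)
  | coprime a b ha hb hab iha ihb =>
    refine linI_mul (iha (by omega) fun p hp hr => ?_) (ihb (by omega) fun p hp hr => ?_)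
    · by_cases hd : p ∣ a
      · have := h p hp hr
        rwa [Nat.factorization_eq_of_coprime_left hab (Nat.mem_primeFactorsList_iff_dvd
          (by omega) hp |>.2 hd)] at this
      · rw [Nat.factorization_eq_zero_of_not_dvd hd]; exact dvd_zero _
    · by_cases hd : p ∣ b
      · have := h p hp hr
        rwa [Nat.factorization_eq_of_coprime_right hab (Nat.mem_primeFactorsList_iff_dvd
          (by omega) hp |>.2 hd)] at this
      · rw [Nat.factorization_eq_zero_of_not_dvd hd]; exact dvd_zero _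

end Pool.Agent.FS.IdIso
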