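import Pool.Agent.FS.AbIso.Ito
import Pool.Agent.FS.AbIso.Orb

/-! A model isotopic to an abelian group has a proper congruence or is affine. -/

namespace Pool.Agent.FS.IdIso

open Equiv Pool.Agent.FS.AbIso

variable {G : Type} [AddCommGroup G]

/-- The group generated by the translations and their conjugates is normalised by `T`, and its
commutator subgroup is abelian. -/
theorem exists_H2 (T : Perm G)
    (hU : ∀ a, ∃ b, T * tr a * T⁻¹ = tr b * (T⁻¹ * tr b * T))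
    (hU' : ∀ b, ∃ a, T * tr a * T⁻¹ = tr b * (T⁻¹ * tr b * T)) :
    ∃ H : Subgroup (Perm G), (∀ c, tr c ∈ H) ∧ (∀ b, T⁻¹ * tr b * T ∈ H) ∧
      (∀ h ∈ H, ∃ c b, h = tr c * (T⁻¹ * tr b * T)) ∧ Nm T H ∧ Nm T⁻¹ H ∧
      ∀ x ∈ ⁅H, H⁆, ∀ y ∈ ⁅H, H⁆, x * y = y * x := by
  set v : G → Perm G := fun b => T⁻¹ * tr b * T with hv
  have vmul : ∀ b c, v b * v c = v (b + c) := fun b c => by
    simp only [hv, ← tr_mul]; group
  have vzero : v 0 = 1 := by simp [hv, tr_zero]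
  have vinv : ∀ b, (v b)⁻¹ = v (-b) := fun b => by
    rw [inv_eq_iff_mul_eq_one, vmul, add_neg_cancel, vzero]
  have swap : ∀ b c, ∃ c' b', v b * tr c = tr c' * v b' := by
    intro b c
    obtain ⟨a1, h1⟩ := hU' b
    obtain ⟨a2, h2⟩ := hU' c
    obtain ⟨d, h3⟩ := hU (a1 + a2)
    have e : tr b * v b * (tr c * v c) = tr d * v d := by
      simp only [hv]
      rw [← h1, ← h2, ← h3, ← tr_mul]; group
    refine ⟨-b + d, d + -c, ?_⟩
    rw [← tr_mul, ← vmul, ← tr_inv, ← vinv]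
    calc v b * tr c = (tr b)⁻¹ * (tr b * v b * (tr c * v c)) * (v c)⁻¹ := by group
      _ = _ := by rw [e]; group
  let H : Subgroup (Perm G) :=
    { carrier := {h | ∃ c b, h = tr c * v b}
      one_mem' := ⟨0, 0, by rw [tr_zero, vzero, one_mul]⟩
      mul_mem' := by
        rintro _ _ ⟨c, b, rfl⟩ ⟨c', b', rfl⟩
        obtain ⟨c2, b2, e⟩ := swap b c'
        refine ⟨c + c2, b2 + b', ?_⟩
        rw [← tr_mul, ← vmul]
        calc tr c * v b * (tr c' * v b') = tr c * (v b * tr c') * v b' := by group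
          _ = _ := by rw [e]; group
      inv_mem' := by
        rintro _ ⟨c, b, rfl⟩
        obtain ⟨c2, b2, e⟩ := swap (-b) (-c)
        exact ⟨c2, b2, by rw [mul_inv_rev, tr_inv, vinv, e]⟩ }
  let A : Subgroup (Perm G) :=
    { carrier := {h | ∃ c, h = tr c}
      one_mem' := ⟨0, tr_zero.symm⟩
      mul_mem' := by
        rintro _ _ ⟨c, rfl⟩ ⟨c', rfl⟩
        exact ⟨_, tr_mul c c'⟩
      inv_mem' := by
        rintro _ ⟨c, rfl⟩
        exact ⟨_, tr_inv c⟩ }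
  let B : Subgroup (Perm G) :=
    { carrier := {h | ∃ c, h = v c}
      one_mem' := ⟨0, vzero.symm⟩
      mul_mem' := by
        rintro _ _ ⟨c, rfl⟩ ⟨c', rfl⟩
        exact ⟨_, vmul c c'⟩
      inv_mem' := by
        rintro _ ⟨c, rfl⟩
        exact ⟨_, vinv c⟩ }
  have trH : ∀ c, tr c ∈ H := fun c => ⟨c, 0, by rw [vzero, mul_one]⟩
  have vH : ∀ c, v c ∈ H := fun c => ⟨0, c, by rw [tr_zero, one_mul]⟩
  refine ⟨H, trH, vH, fun h hh => hh, ?_, ?_, ito A B H ?_ ?_ ?_ ?_ ?_⟩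
  · rintro _ ⟨c, b, rfl⟩
    obtain ⟨d, hd⟩ := hU c
    have e : T * (tr c * v b) * T⁻¹ = (T * tr c * T⁻¹) * tr b := by simp only [hv]; group
    rw [e, hd]
    exact H.mul_mem (H.mul_mem (trH d) (vH d)) (trH b)
  · rintro _ ⟨c, b, rfl⟩
    obtain ⟨a, ha⟩ := hU' b
    have e1 : T⁻¹ * v b * T = (v b)⁻¹ * tr a := by
      calc T⁻¹ * v b * T = (v b)⁻¹ * (T⁻¹ * (tr b * (T⁻¹ * tr b * T)) * T) := by
            simp only [hv]; group
        _ = _ := by rw [← ha]; group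
    have e : T⁻¹ * (tr c * v b) * T⁻¹⁻¹ = v c * (T⁻¹ * v b * T) := by simp only [hv]; group
    rw [e, e1]
    exact H.mul_mem (vH c) (H.mul_mem (H.inv_mem (vH b)) (trH a))
  · rintro _ ⟨c, rfl⟩ _ ⟨c', rfl⟩
    rw [tr_mul, tr_mul, add_comm]
  · rintro _ ⟨c, rfl⟩ _ ⟨c', rfl⟩
    rw [vmul, vmul, add_comm]
  · rintro _ ⟨c, rfl⟩
    exact trH c
  · rintro _ ⟨c, rfl⟩
    exact vH c
  · rintro _ ⟨c, b, rfl⟩
    exact ⟨_, ⟨c, rfl⟩, _, ⟨b, rfl⟩, rfl⟩

theorem struct [Finite G] (f g : G → G) (hE : ∀ x y, f (f (f y + g x) + g y) + g y = x) :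
    (∃ M : AddSubgroup G, M ≠ ⊥ ∧ M ≠ ⊤ ∧ (∀ x y, x - y ∈ M → f x - f y ∈ M) ∧
      ∀ x y, x - y ∈ M → g x - g y ∈ M) ∨ ∀ x y, f (x + y) + f 0 = f x + f y := by
  have hg : Function.Bijective g := Finite.injective_iff_bijective.1 fun x x' h => by
    rw [← hE x 0, h, hE]
  have hf : Function.Bijective f := Finite.surjective_iff_bijective.1 fun z =>
    ⟨_, add_right_cancel (hE (z + g 0) 0)⟩
  obtain ⟨T, hT⟩ : ∃ T : Perm G, ∀ x, T x = f x + g 0 :=
    ⟨tr (g 0) * Equiv.ofBijective f hf, fun x => rfl⟩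
  have hfT : ∀ x, f x = T x - g 0 := fun x => by rw [hT]; abel
  have hgT : ∀ x, g x = T⁻¹ (T⁻¹ x) - f 0 := fun x => by
    have : T⁻¹ (T⁻¹ x) = f 0 + g x := by
      rw [Perm.inv_eq_iff_eq, Perm.inv_eq_iff_eq, hT, hT, hE]
    rw [this]; abel
  have hUy : ∀ y, T * tr (f y - f 0) * T⁻¹ =
      tr (g 0 - g y) * (T⁻¹ * tr (g 0 - g y) * T) := by
    intro y
    ext x
    simp only [Perm.mul_apply, tr_apply]
    have h := hE (T x) y
    have e1 : f y + g (T x) = T⁻¹ x + (f y - f 0) := by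
      rw [hgT]; simp only [Perm.coe_inv, Equiv.symm_apply_apply]; abel
    rw [e1] at h
    have e2 : T⁻¹ (T x + (g 0 - g y)) = f (T⁻¹ x + (f y - f 0)) + g y := by
      rw [Perm.inv_eq_iff_eq, hT (f _ + g y), ← h]; abel
    rw [e2, hT]; abel
  obtain ⟨H, trH, vH, formH, nT, nT', comm⟩ := exists_H2 T
    (fun a => by
      obtain ⟨y, hy⟩ := hf.2 (a + f 0)
      exact ⟨g 0 - g y, by rw [← hUy y, hy, add_sub_cancel_right]⟩)
    (fun b => by
      obtain ⟨y, hy⟩ := hg.2 (g 0 - b)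
      exact ⟨f y - f 0, by rw [hUy y, hy, sub_sub_cancel]⟩)
  by_contra hcon
  rw [not_or] at hcon
  obtain ⟨hsimple, hnl⟩ := hcon
  have simple : ∀ (X : Subgroup (Perm G)) (hX : ∀ c, Nm (tr c) X), Nm T X → Nm T⁻¹ X →
      orb X hX = ⊥ ∨ orb X hX = ⊤ := by
    intro X hX h1 h2
    by_contra hc
    rw [not_or] at hc
    refine hsimple ⟨orb X hX, hc.1, hc.2, fun x y h => ?_, fun x y h => ?_⟩
    · rw [hfT, hfT y, sub_sub_sub_cancel_right]
      exact orb_map hX h1 h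
    · rw [hgT, hgT y, sub_sub_sub_cancel_right]
      exact orb_map hX h2 (orb_map hX h2 h)
  have triv : ∀ (X : Subgroup (Perm G)) (hX : ∀ c, Nm (tr c) X), orb X hX = ⊥ →
      ∀ h ∈ X, h = 1 := by
    intro X hX hb h hh
    ext y
    have := (sub_mem_orb hX _ y).2 ⟨_, hh, rfl⟩
    rw [hb, AddSubgroup.mem_bot, sub_eq_zero] at this
    exact this
  let Z : Subgroup (Perm G) :=
    { carrier := {h | h ∈ H ∧ ∀ k ∈ H, h * k = k * h}
      one_mem' := ⟨one_mem _, fun k _ => by rw [one_mul, mul_one]⟩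
      mul_mem' := fun {a b} ha hb => ⟨mul_mem ha.1 hb.1, fun k hk => by
        rw [mul_assoc, hb.2 k hk, ← mul_assoc, ha.2 k hk, mul_assoc]⟩
      inv_mem' := fun {a} ha => ⟨inv_mem ha.1, fun k hk =>
        (Commute.inv_left (ha.2 k hk : Commute a k))⟩ }
  have nZ : ∀ σ, Nm σ H → Nm σ⁻¹ H → Nm σ Z := fun σ h1 h2 h hh => ⟨h1 h hh.1, fun k hk => by
    have := hh.2 _ (h2 k hk)
    calc σ * h * σ⁻¹ * k = σ * (h * (σ⁻¹ * k * σ⁻¹⁻¹)) * σ⁻¹ := by group
      _ = σ * ((σ⁻¹ * k * σ⁻¹⁻¹) * h) * σ⁻¹ := by rw [this]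
      _ = _ := by group⟩
  have tZ : ∀ c, Nm (tr c) Z := fun c => nZ _ (Nm.self (trH c)) (Nm.self (inv_mem (trH c)))
  rcases simple Z tZ (nZ T nT nT') (nZ T⁻¹ nT' (by rwa [inv_inv])) with hZ | hZ
  · have hnt : Nontrivial G := by
      by_contra hs
      rw [not_nontrivial_iff_subsingleton] at hs
      exact hnl fun x y => Subsingleton.elim _ _
    obtain ⟨p, hp', hpn⟩ := Nat.exists_prime_and_dvd (Finite.one_lt_card (α := G)).ne'
    have hp : Fact p.Prime := ⟨hp'⟩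
    obtain ⟨r, m, hm, hW⟩ := Nat.exists_eq_pow_mul_and_not_dvd
      (Nat.card_pos (α := Perm G)).ne' p hp.out.ne_one
    let N : Subgroup (Perm G) :=
      { carrier := {h | h ∈ ⁅H, H⁆ ∧ h ^ m = 1}
        one_mem' := ⟨one_mem _, one_pow _⟩
        mul_mem' := fun {a b} ha hb => ⟨mul_mem ha.1 hb.1, by
          rw [Commute.mul_pow (comm a ha.1 b hb.1), ha.2, hb.2, one_mul]⟩
        inv_mem' := fun {a} ha => ⟨inv_mem ha.1, by rw [inv_pow, ha.2, inv_one]⟩ }
    have nN : ∀ σ, Nm σ H → Nm σ N := fun σ hσ h hh =>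
      ⟨hσ.comm h hh.1, by rw [conj_pow, hh.2]; group⟩
    have tN : ∀ c, Nm (tr c) N := fun c => nN _ (Nm.self (trH c))
    have pN : ¬ p ∣ Nat.card (orb N tN) := by
      intro h
      rw [card_orb] at h
      obtain ⟨x, hx⟩ := exists_prime_orderOf_dvd_card' p
        (h.trans (MulAction.stabilizer N (0 : G)).index_dvd_card)
      have : x ^ m = 1 := Subtype.ext x.2.2
      exact hm (hx ▸ orderOf_dvd_of_pow_eq_one this)
    have hb : orb N tN = ⊥ := (simple N tN (nN T nT) (nN _ nT')).resolve_right fun h =>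
      pN (by rw [h, AddSubgroup.card_top]; exact hpn)
    have hD : ∀ h ∈ ⁅H, H⁆, h ^ p ^ r = 1 := fun h hh =>
      triv N tN hb _ ⟨pow_mem hh _, by rw [← pow_mul, ← hW, pow_card_eq_one']⟩
    let S : Subgroup (Perm G) :=
      { carrier := {h | h ∈ H ∧ h ^ p ∈ ⁅H, H⁆}
        one_mem' := ⟨one_mem _, by rw [one_pow]; exact one_mem _⟩
        mul_mem' := fun {a b} ha hb => ⟨mul_mem ha.1 hb.1, by
          have := mul_mem (mul_mem (mul_pow_mem ha.1 hb.1 p) ha.2) hb.2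
          simpa using this⟩
        inv_mem' := fun {a} ha => ⟨inv_mem ha.1, by rw [inv_pow]; exact inv_mem ha.2⟩ }
    have nS : ∀ σ, Nm σ H → Nm σ S := fun σ hσ h hh =>
      ⟨hσ h hh.1, by rw [conj_pow]; exact hσ.comm _ hh.2⟩
    have tS : ∀ c, Nm (tr c) S := fun c => nS _ (Nm.self (trH c))
    have pS : IsPGroup p S := fun h => ⟨r + 1, Subtype.ext (by
      change (h : Perm G) ^ p ^ (r + 1) = 1
      rw [pow_succ', pow_mul]; exact hD _ h.2.2)⟩
    obtain ⟨k, hk⟩ := exists_prime_addOrderOf_dvd_card' (G := G) p hpn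
    have hk1 : tr k ≠ 1 := fun h => by
      have : k = 0 := by simpa [tr_apply] using congrArg (fun s : Perm G => s 0) h
      rw [this, addOrderOf_zero] at hk
      exact hp'.ne_one hk.symm
    have hkS : tr k ∈ S := ⟨trH k, by
      rw [tr_pow, ← hk, addOrderOf_nsmul_eq_zero, tr_zero]; exact one_mem _⟩
    have ht : orb S tS = ⊤ := (simple S tS (nS T nT) (nS _ nT')).resolve_left fun h =>
      hk1 (triv S tS h _ hkS)
    obtain ⟨j, hj⟩ := pS.index (MulAction.stabilizer S (0 : G))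
    rw [← card_orb tS, ht, AddSubgroup.card_top] at hj
    have t1 : ∀ c : G, tr c ^ p ^ j = 1 := fun c => by
      rw [tr_pow, ← hj, card_nsmul_eq_zero', tr_zero]
    have pH : IsPGroup p H := by
      rintro ⟨h, hh⟩
      refine ⟨j + r, Subtype.ext ?_⟩
      obtain ⟨c, b, rfl⟩ := formH h hh
      have h1 := mul_pow_mem (trH c) (vH b) (p ^ j)
      have h2 : (T⁻¹ * tr b * T) ^ p ^ j = 1 := by
        have := @conj_pow _ _ (p ^ j) T⁻¹ (tr b)
        rw [inv_inv] at this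
        rw [this, t1]; group
      rw [t1, h2, inv_one, mul_one, mul_one] at h1
      change (tr c * (T⁻¹ * tr b * T)) ^ p ^ (j + r) = 1
      rw [pow_add, pow_mul]
      exact hD _ h1
    have : Nontrivial H := ⟨⟨⟨tr k, trH k⟩, 1, fun h => hk1 (congrArg Subtype.val h)⟩⟩
    have := pH.center_nontrivial
    obtain ⟨z, hz⟩ := exists_ne (1 : Subgroup.center H)
    refine hz (Subtype.ext (Subtype.ext (triv Z tZ hZ _ ⟨z.1.2, fun k hk => ?_⟩)))
    exact (congrArg Subtype.val (Subgroup.mem_center_iff.1 z.2 ⟨k, hk⟩)).symm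
  · apply hnl
    have tra : ∀ x : G, ∃ h ∈ Z, h 0 = x := fun x =>
      (show x ∈ orb Z tZ from hZ ▸ AddSubgroup.mem_top x)
    have key : ∀ b x, T⁻¹ (T x + b) = T⁻¹ (T 0 + b) + x := by
      intro b x
      obtain ⟨h, hh, e⟩ := tra x
      have c1 := congrArg (fun s : Perm G => s 0) (hh.2 _ (vH b))
      have c2 := congrArg (fun s : Perm G => s 0) (hh.2 _ (trH (T⁻¹ (T 0 + b))))
      simp only [Perm.mul_apply, tr_apply, zero_add, e] at c1 c2
      rw [← c1, c2, add_comm]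
    intro x y
    have := key (T y - T 0) x
    rw [add_sub_cancel, Perm.inv_eq_iff_eq] at this
    simp only [Perm.coe_inv, Equiv.symm_apply_apply] at this
    rw [hfT, hfT 0, hfT x, hfT y, add_comm x y, ← this]
    abel

end Pool.Agent.FS.IdIso
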